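import Pool.Agent.Lib.lead.CXNum

/-! Equitable 2-choosability of unions of stars; the first part repeats lemmas of helper26. -/

namespace Pool.Agent.H.MP_5b98da_lc

open Finset

/-- Vertices of `K_{1,m 0} + ... + K_{1,m (n-1)}`: `⟨i, none⟩` is the centre of the `i`-th star,
`⟨i, some l⟩` its leaves. -/
abbrev Vx {n : ℕ} (m : Fin n → ℕ) := Σ i : Fin n, Option (Fin (m i))

/-- The disjoint union of stars: a centre is adjacent to the leaves of its own star. -/
def stars {n : ℕ} (m : Fin n → ℕ) : SimpleGraph (Vx m) where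
  Adj u v := u.1 = v.1 ∧ u.2.isNone ≠ v.2.isNone
  symm := ⟨fun _ _ h => ⟨h.1.symm, h.2.symm⟩⟩
  loopless := ⟨fun _ h => h.2 rfl⟩

/-- Equitably `2`-choosable (colours are natural numbers). -/
def EqChoosable {V : Type} [Fintype V] (G : SimpleGraph V) : Prop :=
  ∀ L : V → Finset ℕ, (∀ v, (L v).card = 2) → ∃ c : V → ℕ, (∀ v, c v ∈ L v) ∧
    (∀ u v, G.Adj u v → c u ≠ c v) ∧
    ∀ col, (univ.filter fun v => c v = col).card ≤ ⌈(Fintype.card V : ℚ) / 2⌉₊

lemma ceil_eq (N : ℕ) : ⌈(N : ℚ) / 2⌉₊ = (N + 1) / 2 := by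
  apply le_antisymm
  · rw [Nat.ceil_le, div_le_iff₀ (by norm_num)]
    exact_mod_cast (by omega : N ≤ (N + 1) / 2 * 2)
  · have := Nat.le_ceil ((N : ℚ) / 2)
    rw [div_le_iff₀ (by norm_num)] at this
    have : N ≤ ⌈(N : ℚ) / 2⌉₊ * 2 := by exact_mod_cast this
    omega

lemma card_Vx {n : ℕ} (m : Fin n → ℕ) : Fintype.card (Vx m) = ∑ i, (m i + 1) := by simp

lemma count_eq {n : ℕ} (m : Fin n → ℕ) (p : Vx m → Prop) [DecidablePred p] :
    (univ.filter p).card = ∑ i, ((if p ⟨i, none⟩ then 1 else 0) +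
      ∑ l, if p ⟨i, some l⟩ then 1 else 0) := by
  rw [card_filter, Fintype.sum_sigma]
  simp only [Fintype.sum_option]

lemma greedy {V : Type} [Fintype V] [DecidableEq V] (φ ψ : V → ℕ) (B : ℕ)
    (hB : Fintype.card V ≤ 2 * B)
    (h : ∀ col, (univ.filter fun v => φ v = col ∧ ψ v = col).card ≤ B) :
    ∃ c : V → ℕ, (∀ v, c v = φ v ∨ c v = ψ v) ∧
      ∀ col, (univ.filter fun v => c v = col).card ≤ B := by
  have key : ∀ U : Finset V, ∃ c : V → ℕ, (∀ v, c v = φ v ∨ c v = ψ v) ∧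
      ∀ col, (univ.filter fun v => (φ v = ψ v ∨ v ∈ U) ∧ c v = col).card ≤ B := by
    intro U
    induction U using Finset.induction_on with
    | empty =>
      refine ⟨φ, fun _ => Or.inl rfl, fun col => le_trans (card_le_card fun v => ?_) (h col)⟩
      simp only [mem_filter, mem_univ, true_and, notMem_empty, or_false]
      omega
    | insert w U hw ih =>
      obtain ⟨c, h1, h2⟩ := ih
      by_cases hf : φ w = ψ w
      · refine ⟨c, h1, fun col => le_trans (card_le_card fun v => ?_) (h2 col)⟩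
        simp only [mem_filter, mem_univ, true_and, mem_insert]
        rintro ⟨h | rfl | h, e⟩
        exacts [⟨Or.inl h, e⟩, ⟨Or.inl hf, e⟩, ⟨Or.inr h, e⟩]
      obtain ⟨y, hy, hlt⟩ : ∃ y, (y = φ w ∨ y = ψ w) ∧
          (univ.filter fun v => (φ v = ψ v ∨ v ∈ U) ∧ c v = y).card < B := by
        by_contra hc
        push Not at hc
        have a := hc _ (Or.inl rfl)
        have b := hc _ (Or.inr rfl)
        have d := card_le_card (subset_erase (a := w) (t := univ).2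
          ⟨subset_univ ((univ.filter fun v => (φ v = ψ v ∨ v ∈ U) ∧ c v = φ w) ∪
            (univ.filter fun v => (φ v = ψ v ∨ v ∈ U) ∧ c v = ψ w)), by simp [hf, hw]⟩)
        rw [card_union_of_disjoint (by
          rw [disjoint_filter]; intro v _ h1 h2; exact hf (h1.2.symm.trans h2.2)),
          card_erase_of_mem (mem_univ _), card_univ] at d
        have : 0 < Fintype.card V := Fintype.card_pos_iff.2 ⟨w⟩
        omega
      refine ⟨Function.update c w y, fun v => ?_, fun col => ?_⟩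
      · by_cases hv : v = w
        · subst hv; simpa using hy
        · simpa [hv] using h1 v
      · by_cases hcol : col = y
        · refine le_trans (card_le_card (t := insert w (univ.filter fun v =>
            (φ v = ψ v ∨ v ∈ U) ∧ c v = y)) fun v => ?_) ((card_insert_le _ _).trans hlt)
          by_cases hv : v = w <;> simp [hv, hcol]
        · refine le_trans (card_le_card fun v => ?_) (h2 col)
          by_cases hv : v = w
          · simp [hv, Ne.symm hcol]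
          · simp [hv]
  obtain ⟨c, h1, h2⟩ := key univ
  exact ⟨c, h1, fun col => by simpa using h2 col⟩

def Ty (M At Af Bt Bf : ℕ) : Prop :=
  (At ≤ 1 ∧ Bt ≤ M ∧ Af ≤ M ∧ Bf ≤ 1) ∨ (At = Af ∧ Bt = Bf ∧ 2 * (At + Bt) ≤ M + 1)

section
variable {n : ℕ} {m : Fin n → ℕ} (p q : Vx m → ℕ)

/-- number of vertices of star `i` forced to colour `col` when the centre gets `y` -/
def f (i : Fin n) (y col : ℕ) : ℕ :=
  (if y = col then 1 else 0) + ∑ l, if (p ⟨i, some l⟩ = y ∧ q ⟨i, some l⟩ = col) ∨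
    (q ⟨i, some l⟩ = y ∧ p ⟨i, some l⟩ = col) then 1 else 0

variable {p q}

lemma sum_le_m {M : ℕ} (g : Fin M → ℕ) (h : ∀ l, g l ≤ 1) : ∑ l, g l ≤ M := by
  simpa using sum_le_card_nsmul univ g 1 fun l _ => h l

lemma f_self (hpq : ∀ v, p v ≠ q v) (i : Fin n) (g : ℕ) : f p q i g g = 1 := by
  rw [f, if_pos rfl, sum_eq_zero, add_zero]
  intro l _
  have := hpq ⟨i, some l⟩
  rw [if_neg]; omega

lemma f_le (hpq : ∀ v, p v ≠ q v) (i : Fin n) (hm : 1 ≤ m i) (y g : ℕ) : f p q i y g ≤ m i := by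
  by_cases h : y = g
  · rw [h, f_self hpq]; exact hm
  · rw [f, if_neg h, zero_add]
    exact sum_le_m _ fun l => by split_ifs <;> omega

lemma f_pair (i : Fin n) {y z g g' : ℕ} (hg : g ≠ g') (h1 : y ≠ g) (h2 : ¬ (y = g' ∧ z = g)) :
    f p q i y g + f p q i z g' ≤ m i + 1 := by
  rw [f, f, if_neg h1, zero_add, add_left_comm, ← sum_add_distrib]
  have := sum_le_m (fun l : Fin (m i) => (if (p ⟨i, some l⟩ = y ∧ q ⟨i, some l⟩ = g) ∨
    (q ⟨i, some l⟩ = y ∧ p ⟨i, some l⟩ = g) then 1 else 0) +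
    if (p ⟨i, some l⟩ = z ∧ q ⟨i, some l⟩ = g') ∨
    (q ⟨i, some l⟩ = z ∧ p ⟨i, some l⟩ = g') then 1 else 0) fun l => by split_ifs <;> omega
  split_ifs <;> omega

lemma f_four (hpq : ∀ v, p v ≠ q v) (i : Fin n) {y z a b : ℕ} (hab : a ≠ b) (hyz : y ≠ z)
    (h1 : ¬ (y = a ∧ z = b)) (h2 : ¬ (y = b ∧ z = a)) :
    f p q i y a + f p q i y b + (f p q i z a + f p q i z b) ≤ m i + 1 := by
  have := sum_le_m (fun l : Fin (m i) => ((if (p ⟨i, some l⟩ = y ∧ q ⟨i, some l⟩ = a) ∨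
    (q ⟨i, some l⟩ = y ∧ p ⟨i, some l⟩ = a) then 1 else 0) +
    if (p ⟨i, some l⟩ = y ∧ q ⟨i, some l⟩ = b) ∨
    (q ⟨i, some l⟩ = y ∧ p ⟨i, some l⟩ = b) then 1 else 0) +
    ((if (p ⟨i, some l⟩ = z ∧ q ⟨i, some l⟩ = a) ∨
    (q ⟨i, some l⟩ = z ∧ p ⟨i, some l⟩ = a) then 1 else 0) +
    if (p ⟨i, some l⟩ = z ∧ q ⟨i, some l⟩ = b) ∨
    (q ⟨i, some l⟩ = z ∧ p ⟨i, some l⟩ = b) then 1 else 0)) fun l => by
      have := hpq ⟨i, some l⟩
      split_ifs <;> omega
  simp only [sum_add_distrib] at this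
  unfold f
  split_ifs <;> omega

lemma two_heavy (hpq : ∀ v, p v ≠ q v) (hm : ∀ i, 1 ≤ m i) (B : ℕ) (hB : ∑ i, (m i + 1) ≤ 2 * B)
    (H : ∀ x : Fin n → ℕ, (∀ i, x i = p ⟨i, none⟩ ∨ x i = q ⟨i, none⟩) →
      ∃ g, B < ∑ i, f p q i (x i) g) :
    ∃ a b, a ≠ b ∧ ∀ x : Fin n → ℕ, (∀ i, x i = p ⟨i, none⟩ ∨ x i = q ⟨i, none⟩) →
      B < ∑ i, f p q i (x i) a ∨ B < ∑ i, f p q i (x i) b := by
  obtain ⟨Hv, hHv⟩ : ∃ Hv : ℕ → Prop, Hv = fun g => ∃ x : Fin n → ℕ,
    (∀ i, x i = p ⟨i, none⟩ ∨ x i = q ⟨i, none⟩) ∧ B < ∑ i, f p q i (x i) g := ⟨_, rfl⟩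
  suffices S : ∃ a b, a ≠ b ∧ ∀ g, Hv g → g = a ∨ g = b by
    obtain ⟨a, b, hab, S⟩ := S
    refine ⟨a, b, hab, fun x hx => ?_⟩
    obtain ⟨g, hg⟩ := H x hx
    rcases S g (by rw [hHv]; exact ⟨x, hx, hg⟩) with rfl | rfl
    exacts [Or.inl hg, Or.inr hg]
  by_contra hc
  push Not at hc
  obtain ⟨a, ha, -⟩ := hc 0 1 (by norm_num)
  obtain ⟨b, hb, hba, -⟩ := hc a (a + 1) (by omega)
  obtain ⟨c, hcc, hca, hcb⟩ := hc a b hba.symm
  obtain ⟨nx, hnx⟩ : ∃ nx : ℕ → ℕ, nx = fun g => if g = a then b else if g = b then c else a :=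
    ⟨_, rfl⟩
  have n1 : ∀ g, Hv (nx g) := by intro g; rw [hnx]; simp only; split_ifs <;> assumption
  have n2 : ∀ g, g ≠ nx g := by intro g; rw [hnx]; simp only; split_ifs <;> omega
  have n3 : ∀ g, g ≠ nx (nx g) := by intro g; rw [hnx]; simp only; split_ifs <;> omega
  obtain ⟨g, hg⟩ := H (fun i => if q ⟨i, none⟩ = nx (p ⟨i, none⟩) then p ⟨i, none⟩ else q ⟨i, none⟩)
    (fun i => by split_ifs <;> simp)
  have h1 := n1 g
  rw [hHv] at h1
  obtain ⟨z, hz, hz'⟩ := h1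
  have : ∑ i, (f p q i (if q ⟨i, none⟩ = nx (p ⟨i, none⟩) then p ⟨i, none⟩ else q ⟨i, none⟩) g +
      f p q i (z i) (nx g)) ≤ ∑ i, (m i + 1) := by
    refine sum_le_sum fun i _ => ?_
    by_cases e : (if q ⟨i, none⟩ = nx (p ⟨i, none⟩) then p ⟨i, none⟩ else q ⟨i, none⟩) = g
    · rw [e, f_self hpq]
      have := f_le hpq i (hm i) (z i) (nx g)
      omega
    · refine f_pair i (n2 g) e ?_
      rintro ⟨e1, e2⟩
      have := hz i
      have := n3 g
      split_ifs at e e1 with e3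
      · rw [e1] at e3; omega
      · apply e3
        rw [e1]; congr 1; omega
  rw [sum_add_distrib] at this
  omega

lemma star_type (hpq : ∀ v, p v ≠ q v) (hm : ∀ i, 1 ≤ m i) {a b : ℕ} (hab : a ≠ b) (i : Fin n) :
    ∃ u v, (u = p ⟨i, none⟩ ∨ u = q ⟨i, none⟩) ∧ (v = p ⟨i, none⟩ ∨ v = q ⟨i, none⟩) ∧
      Ty (m i) (f p q i u a) (f p q i v a) (f p q i u b) (f p q i v b) := by
  have T : Ty (m i) (f p q i a a) (f p q i b a) (f p q i a b) (f p q i b b) :=
    Or.inl ⟨(f_self hpq ..).le, f_le hpq i (hm i) .., f_le hpq i (hm i) .., (f_self hpq ..).le⟩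
  by_cases h1 : p ⟨i, none⟩ = a ∧ q ⟨i, none⟩ = b
  · exact ⟨a, b, Or.inl h1.1.symm, Or.inr h1.2.symm, T⟩
  by_cases h2 : p ⟨i, none⟩ = b ∧ q ⟨i, none⟩ = a
  · exact ⟨a, b, Or.inr h2.2.symm, Or.inl h2.1.symm, T⟩
  have := f_four hpq i hab (hpq ⟨i, none⟩) h1 h2
  rcases le_total (f p q i (p ⟨i, none⟩) a + f p q i (p ⟨i, none⟩) b)
    (f p q i (q ⟨i, none⟩) a + f p q i (q ⟨i, none⟩) b) with h | h
  · exact ⟨_, _, Or.inl rfl, Or.inl rfl, Or.inr ⟨rfl, rfl, by omega⟩⟩
  · exact ⟨_, _, Or.inr rfl, Or.inr rfl, Or.inr ⟨rfl, rfl, by omega⟩⟩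

lemma colour (hpq : ∀ v, p v ≠ q v) (B : ℕ) (hB : ∑ i, (m i + 1) ≤ 2 * B) (x : Fin n → ℕ)
    (hx : ∀ i, x i = p ⟨i, none⟩ ∨ x i = q ⟨i, none⟩) (h : ∀ g, ∑ i, f p q i (x i) g ≤ B) :
    ∃ c : Vx m → ℕ, (∀ v, c v = p v ∨ c v = q v) ∧ (∀ u v, (stars m).Adj u v → c u ≠ c v) ∧
      ∀ col, (univ.filter fun v => c v = col).card ≤ B := by
  classical
  obtain ⟨c, h1, h2⟩ := greedy
    (fun v : Vx m => if v.2.isNone then x v.1 else if p v = x v.1 then q v else p v)
    (fun v : Vx m => if v.2.isNone then x v.1 else if q v = x v.1 then p v else q v) B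
    (by rw [card_Vx]; exact hB) (fun col => by
      refine le_trans (le_of_eq ?_) (h col)
      rw [count_eq]
      refine sum_congr rfl fun i _ => ?_
      rw [f]
      congr 1
      · simp
      · refine sum_congr rfl fun l _ => ?_
        have := hpq ⟨i, some l⟩
        simp only [Option.isNone_some, Bool.false_eq_true, if_false]
        split_ifs <;> omega)
  have c1 : ∀ i, c ⟨i, none⟩ = x i := fun i => by simpa using h1 ⟨i, none⟩
  have c2 : ∀ i l, c ⟨i, some l⟩ ≠ x i ∧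
      (c ⟨i, some l⟩ = p ⟨i, some l⟩ ∨ c ⟨i, some l⟩ = q ⟨i, some l⟩) := by
    intro i l
    have := h1 ⟨i, some l⟩
    have := hpq ⟨i, some l⟩
    simp only [Option.isNone_some, Bool.false_eq_true, if_false] at *
    split_ifs at * <;> omega
  refine ⟨c, ?_, ?_, h2⟩
  · rintro ⟨i, _ | l⟩
    · rw [c1]; exact hx i
    · exact (c2 i l).2
  · rintro ⟨i, u⟩ ⟨j, v⟩ ⟨e, h⟩
    simp only at e h
    subst e
    rcases u with _ | u <;> rcases v with _ | v
    · simp at h
    · rw [c1]; exact (c2 i v).1.symm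
    · rw [c1]; exact (c2 i u).1
    · simp at h

end

lemma suff {n : ℕ} {m w : Fin n → ℕ} (hm : ∀ i, m i = w i + 1)
    (H : ∀ T : Finset (Fin n), ∃ P ⊆ Tᶜ,
      2 * ∑ i ∈ P, w i ≤ 2 * ∑ i ∈ Tᶜ \ P, w i + ∑ i ∈ T, (w i + 2) ∧
      2 * ∑ i ∈ Tᶜ \ P, w i ≤ 2 * ∑ i ∈ P, w i + ∑ i ∈ T, (w i + 2)) : EqChoosable (stars m) := by
  classical
  intro L hL
  choose p q hpq hL using fun v => card_eq_two.1 (hL v)
  rw [card_Vx, ceil_eq]
  generalize hB : (∑ i, (m i + 1) + 1) / 2 = B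
  suffices S : ∃ x : Fin n → ℕ, (∀ i, x i = p ⟨i, none⟩ ∨ x i = q ⟨i, none⟩) ∧
      ∀ g, ∑ i, f p q i (x i) g ≤ B by
    obtain ⟨x, hx, h⟩ := S
    obtain ⟨c, h1, h2, h3⟩ := colour hpq _ (by omega) x hx h
    exact ⟨c, fun v => by rw [hL]; simpa using h1 v, h2, h3⟩
  by_contra hc
  push Not at hc
  have h1 : ∀ i, 1 ≤ m i := fun i => by rw [hm]; omega
  obtain ⟨a, b, hab, K⟩ := two_heavy hpq h1 _ (by omega) hc
  choose u v hu hv hT using star_type hpq h1 hab
  obtain ⟨T, hT'⟩ : ∃ T : Finset (Fin n), T = univ.filter fun i => ¬ (f p q i (u i) a ≤ 1 ∧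
    f p q i (u i) b ≤ m i ∧ f p q i (v i) a ≤ m i ∧ f p q i (v i) b ≤ 1) := ⟨_, rfl⟩
  have t1 := fun i (h : i ∈ Tᶜ) => (show _ ∧ _ ∧ _ ∧ _ by simpa [hT'] using h)
  have t2 := fun i (h : i ∈ T) => (hT i).resolve_left (by simpa [hT'] using h)
  have key : ∀ P ⊆ Tᶜ, B < #Tᶜ + ∑ i ∈ Tᶜ \ P, w i + ∑ i ∈ T, f p q i (u i) a ∨
      B < #Tᶜ + ∑ i ∈ P, w i + ∑ i ∈ T, f p q i (u i) b := fun P hP => by
    have e : ∀ (Q : Finset (Fin n)), Q ⊆ Tᶜ → #Tᶜ + ∑ i ∈ Q, w i =
        ∑ i ∈ Tᶜ, (1 + if i ∈ Q then w i else 0) := fun Q hQ => by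
      rw [sum_add_distrib, ← sum_filter, filter_mem_eq_inter, inter_eq_right.2 hQ]; simp
    refine (K (fun i => if i ∈ P then u i else v i) fun i => by
      split_ifs; exacts [hu i, hv i]).imp (fun h => h.trans_le ?_) fun h => h.trans_le ?_ <;>
      rw [← sum_compl_add_sum T] <;> refine add_le_add ?_ (sum_le_sum fun i hi => ?_)
    · rw [e _ sdiff_subset]
      refine sum_le_sum fun i hi => ?_
      have := t1 i hi
      have := hm i
      by_cases r : i ∈ P <;> simp only [r, mem_sdiff, hi, if_true, if_false, not_true, and_false,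
        not_false_iff, and_true] <;> omega
    · have := t2 i hi
      split_ifs <;> omega
    · rw [e _ hP]
      refine sum_le_sum fun i hi => ?_
      have := t1 i hi
      have := hm i
      split_ifs <;> omega
    · have := t2 i hi
      split_ifs <;> omega
  obtain ⟨P, hP, a1, a2⟩ := H T
  have k1 := key P hP
  have k2 := key _ (sdiff_subset (t := P))
  rw [Finset.sdiff_sdiff_eq_self hP] at k2
  have e1 : ∑ i, (m i + 1) = ∑ i ∈ Tᶜ \ P, w i + ∑ i ∈ P, w i + 2 * #Tᶜ + ∑ i ∈ T, (w i + 2) := by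
    rw [sum_sdiff hP, ← sum_compl_add_sum T]
    simp only [hm, add_assoc, sum_add_distrib]
    simp
    ring
  have e2 : 2 * (∑ i ∈ T, f p q i (u i) a + ∑ i ∈ T, f p q i (u i) b) ≤ ∑ i ∈ T, (w i + 2) := by
    rw [← sum_add_distrib, mul_sum]
    exact sum_le_sum fun i hi => by have := t2 i hi; have := hm i; omega
  omega

lemma nec {n : ℕ} {m w : Fin n → ℕ} (hm : ∀ i, m i = w i + 1) (h : EqChoosable (stars m)) :
    ∃ P : Finset (Fin n), ∑ i ∈ P, w i ≤ ∑ i ∈ Pᶜ, w i + 1 ∧ ∑ i ∈ Pᶜ, w i ≤ ∑ i ∈ P, w i + 1 := by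
  obtain ⟨c, h1, h2, h3⟩ := h (fun _ => {0, 1}) fun _ => rfl
  rw [card_Vx, ceil_eq] at h3
  simp only [mem_insert, mem_singleton] at h1
  have key : ∀ col, col < 2 → n + ∑ i ∈ univ.filter fun i => c ⟨i, none⟩ ≠ col, w i ≤
      (∑ i, (m i + 1) + 1) / 2 := fun col hcol => by
    refine le_trans ?_ (h3 col)
    rw [count_eq, sum_filter]
    refine le_trans (le_of_eq (b := ∑ i, (1 + if c ⟨i, none⟩ ≠ col then w i else 0))
      (by simp [sum_add_distrib])) (sum_le_sum fun i _ => ?_)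
    by_cases e : c ⟨i, none⟩ = col
    · simp [e]
    · rw [if_pos e, if_neg e, sum_congr rfl (g := fun _ => 1) fun l _ => if_pos (by
        have := h1 ⟨i, none⟩
        have := h1 ⟨i, some l⟩
        have := h2 ⟨i, none⟩ ⟨i, some l⟩ ⟨rfl, by simp⟩
        omega)]
      simp [hm, add_comm]
  have k0 := key 0 (by omega)
  have k1 := key 1 (by omega)
  rw [show (univ.filter fun i => c ⟨i, none⟩ ≠ 1) = (univ.filter fun i => c ⟨i, none⟩ ≠ 0)ᶜ by
    ext i; have := h1 ⟨i, none⟩; simp; omega] at k1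
  refine ⟨univ.filter fun i => c ⟨i, none⟩ ≠ 0, ?_⟩
  generalize (univ.filter fun i => c ⟨i, none⟩ ≠ 0) = P at *
  have e1 : ∑ i, (m i + 1) = ∑ i ∈ P, w i + ∑ i ∈ Pᶜ, w i + 2 * n := by
    rw [sum_add_sum_compl]
    simp only [hm, add_assoc, sum_add_distrib]
    simp
    ring
  omega

def g (l : List ℕ) (i : ℕ) : ℕ :=
  (if 2 * l.length + 4 ≤ i then 6 else 4) * (2 * l.sum + 1) + 2 * l.getD i 0

lemma sum_g (l : List ℕ) (P : Finset ℕ) : ∑ i ∈ P, g l i =
    (4 * #(P.filter (· < 2 * l.length + 4)) + 6 * #(P.filter (2 * l.length + 4 ≤ ·))) * (2 * l.sum + 1) +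
      2 * ∑ i ∈ P.filter (· < l.length), l.getD i 0 := by
  unfold g
  rw [sum_add_distrib, ← sum_mul, sum_ite, ← mul_sum, sum_filter_of_ne (p := (· < l.length))
    fun i _ h => lt_of_not_ge fun k => h (List.getD_eq_default _ _ k)]
  simp [add_comm, mul_comm]

open Pool.Agent.Lib.CX in
lemma comb (l : List ℕ) (h : Partition l) (T : Finset ℕ) (hT : T ⊆ range (2 * l.length + 6)) :
    ∃ P ⊆ range (2 * l.length + 6) \ T,
      2 * ∑ i ∈ P, g l i ≤ 2 * ∑ i ∈ (range (2 * l.length + 6) \ T) \ P, g l i + ∑ i ∈ T, (g l i + 2) ∧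
      2 * ∑ i ∈ (range (2 * l.length + 6) \ T) \ P, g l i ≤ 2 * ∑ i ∈ P, g l i + ∑ i ∈ T, (g l i + 2) := by
  obtain ⟨k, hk⟩ : ∃ k, k = l.length := ⟨_, rfl⟩
  have sg := sum_g l
  have le : ∀ P : Finset ℕ, ∑ i ∈ P.filter (· < l.length), l.getD i 0 ≤ l.sum := fun P =>
    sum_getD l ▸ sum_le_sum_of_subset fun i hi => mem_range.2 (mem_filter.1 hi).2
  have c4 : #((range (2 * k + 6)).filter (· < 2 * k + 4)) = 2 * k + 4 := by
    rw [show (range (2 * k + 6)).filter (· < 2 * k + 4) = range (2 * k + 4) by ext; simp; omega,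
      card_range]
  have c6 : #((range (2 * k + 6)).filter (2 * k + 4 ≤ ·)) = 2 := by
    rw [show (range (2 * k + 6)).filter (2 * k + 4 ≤ ·) = {2 * k + 4, 2 * k + 5} by ext; simp; omega,
      card_pair (by omega)]
  have tot := sg (range (2 * k + 6))
  have s0 := sum_getD l
  unfold Lib.CX.Partition at h
  rw [← hk] at sg le tot s0 h hT ⊢
  rw [c4, c6, show (range (2 * k + 6)).filter (· < k) = range k by ext; simp; omega] at tot
  rw [s0] at tot
  rcases T.eq_empty_or_nonempty with rfl | hn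
  · obtain ⟨S, s1, s2⟩ := h
    have s3 := card_le_card s1
    rw [card_range] at s3
    have m1 : ∀ i ∈ S, i < k := fun i hi => mem_range.1 (s1 hi)
    obtain ⟨P, hP⟩ : ∃ P, P = S ∪ Ico k (2 * k + 2 - #S) ∪ {2 * k + 4} := ⟨_, rfl⟩
    have p1 : P ⊆ range (2 * k + 6) := fun i hi => by
      have := m1 i
      simp only [hP, mem_union, mem_Ico, mem_singleton, mem_range] at *
      grind
    have p2 := sg P
    rw [show P.filter (· < 2 * k + 4) = S ∪ Ico k (2 * k + 2 - #S) by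
        ext i; have := m1 i; simp only [hP, mem_union, mem_Ico, mem_singleton, mem_filter]; grind,
      show P.filter (2 * k + 4 ≤ ·) = {2 * k + 4} by
        ext i; have := m1 i; simp only [hP, mem_union, mem_Ico, mem_singleton, mem_filter]; grind,
      show P.filter (· < k) = S by
        ext i; have := m1 i; simp only [hP, mem_union, mem_Ico, mem_singleton, mem_filter]; grind,
      card_union_of_disjoint (disjoint_left.2 fun i a b => (m1 i a).not_ge (mem_Ico.1 b).1),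
      Nat.card_Ico, card_singleton, show #S + (2 * k + 2 - #S - k) = k + 2 by omega] at p2
    have p3 := sum_sdiff (f := g l) p1
    refine ⟨P, by simpa using p1, ?_⟩
    rw [sdiff_empty, sum_empty]
    constructor <;> nlinarith
  · obtain ⟨R, hR⟩ : ∃ R, R = range (2 * k + 6) \ T := ⟨_, rfl⟩
    have r4 : #(R.filter (· < 2 * k + 4)) + #(T.filter (· < 2 * k + 4)) = 2 * k + 4 := by
      rw [← card_union_of_disjoint (disjoint_filter_filter (hR ▸ sdiff_disjoint)), ← filter_union, hR,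
        sdiff_union_of_subset hT, c4]
    have r6 : #(R.filter (2 * k + 4 ≤ ·)) + #(T.filter (2 * k + 4 ≤ ·)) = 2 := by
      rw [← card_union_of_disjoint (disjoint_filter_filter (hR ▸ sdiff_disjoint)), ← filter_union, hR,
        sdiff_union_of_subset hT, c6]
    have t0 : 0 < #(T.filter (· < 2 * k + 4)) + #(T.filter (2 * k + 4 ≤ ·)) := by
      have := card_filter_add_card_filter_not (s := T) (· < 2 * k + 4)
      simp only [not_lt] at this
      exact this ▸ hn.card_pos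
    have t1 : ∑ i ∈ T, g l i ≤ ∑ i ∈ T, (g l i + 2) := sum_le_sum fun _ _ => by omega
    have t2 := sg T
    have t3 := sg R
    have l3 := le R
    obtain ⟨x, y, hx, hy, e1, e2⟩ : ∃ x y, x ≤ #(R.filter (· < 2 * k + 4)) ∧
        y ≤ #(R.filter (2 * k + 4 ≤ ·)) ∧
        4 * (4 * x + 6 * y) + 2 ≤ 2 * (4 * #(R.filter (· < 2 * k + 4)) + 6 * #(R.filter (2 * k + 4 ≤ ·))) +
          (4 * #(T.filter (· < 2 * k + 4)) + 6 * #(T.filter (2 * k + 4 ≤ ·))) ∧
        2 * (4 * #(R.filter (· < 2 * k + 4)) + 6 * #(R.filter (2 * k + 4 ≤ ·))) + 2 ≤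
          4 * (4 * x + 6 * y) + (4 * #(T.filter (· < 2 * k + 4)) + 6 * #(T.filter (2 * k + 4 ≤ ·))) := by
      generalize #(R.filter (· < 2 * k + 4)) = a at *
      generalize #(R.filter (2 * k + 4 ≤ ·)) = b at *
      by_cases q : b = 2 ∧ a % 2 = 1 ∧ 3 ≤ a
      · exact ⟨(a - 3) / 2, 2, by omega⟩
      by_cases q' : b = 1 ∧ 1 ≤ a
      · exact ⟨(a - 1) / 2, 1, by omega⟩
      · exact ⟨a / 2, b / 2, by omega⟩
    obtain ⟨X, x1, x2⟩ := exists_subset_card_eq hx
    obtain ⟨Y, y1, y2⟩ := exists_subset_card_eq hy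
    have x3 := fun i hi => mem_filter.1 (@x1 i hi)
    have y3 := fun i hi => mem_filter.1 (@y1 i hi)
    have p1 : X ∪ Y ⊆ R := union_subset (x1.trans (filter_subset _ _)) (y1.trans (filter_subset _ _))
    have p2 := sg (X ∪ Y)
    rw [show (X ∪ Y).filter (· < 2 * k + 4) = X by
        ext i; have := x3 i; have := y3 i; simp only [mem_union, mem_filter]; grind,
      show (X ∪ Y).filter (2 * k + 4 ≤ ·) = Y by
        ext i; have := x3 i; have := y3 i; simp only [mem_union, mem_filter]; grind, x2, y2] at p2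
    have p3 := sum_sdiff (f := g l) p1
    have p4 : ∑ i ∈ (X ∪ Y).filter (· < k), l.getD i 0 ≤ ∑ i ∈ R.filter (· < k), l.getD i 0 :=
      sum_le_sum_of_subset (filter_subset_filter _ p1)
    rw [← hR]
    refine ⟨X ∪ Y, p1, ?_⟩
    have f1 := Nat.mul_le_mul_right (2 * l.sum + 1) e1
    have f2 := Nat.mul_le_mul_right (2 * l.sum + 1) e2
    simp only [add_mul, mul_assoc] at f1 f2 p2 t2 t3
    omega

open Pool.Agent.Lib.CX in
lemma red (l : List ℕ) {n : ℕ} (hn : n = 2 * l.length + 6) {m : Fin n → ℕ}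
    (hm : ∀ i, m i = g l i + 1) : Partition l ↔ EqChoosable (stars m) := by
  subst hn
  have mp : ∀ (P : Finset (Fin (2 * l.length + 6))), Pᶜ.map Fin.valEmbedding =
      range (2 * l.length + 6) \ P.map Fin.valEmbedding := fun P => by
    rw [compl_eq_univ_sdiff, Finset.map_sdiff, Fin.map_valEmbedding_univ, Nat.Iio_eq_range]
  have sm : ∀ (P : Finset (Fin (2 * l.length + 6))) (F : ℕ → ℕ), ∑ i ∈ P, F i =
      ∑ i ∈ P.map Fin.valEmbedding, F i := fun P F => (sum_map P Fin.valEmbedding F).symm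
  refine ⟨fun h => suff hm fun T => ?_, fun h => ?_⟩
  · obtain ⟨P, a, b⟩ := comb l h (T.map Fin.valEmbedding) fun i hi => by
      obtain ⟨j, -, rfl⟩ := mem_map.1 hi
      exact mem_range.2 j.2
    rw [← mp] at a b
    obtain ⟨Q, q, rfl⟩ := subset_map_iff.1 a
    exact ⟨Q, q, by rwa [sm, sm, sm T fun i => g l i + 2, Finset.map_sdiff]⟩
  · obtain ⟨P, a, b⟩ := nec hm h
    rw [sm, sm, mp] at a b
    have p1 : P.map Fin.valEmbedding ⊆ range (2 * l.length + 6) := fun i hi => by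
      obtain ⟨j, -, rfl⟩ := mem_map.1 hi
      exact mem_range.2 j.2
    generalize P.map Fin.valEmbedding = P at *
    have p3 := sum_sdiff (f := g l) p1
    rw [sum_g l (range _),
      show (range (2 * l.length + 6)).filter (· < 2 * l.length + 4) = range (2 * l.length + 4) by
        ext; simp; omega,
      show (range (2 * l.length + 6)).filter (2 * l.length + 4 ≤ ·) =
        {2 * l.length + 4, 2 * l.length + 5} by ext; simp; omega,
      show (range (2 * l.length + 6)).filter (· < l.length) = range l.length by ext; simp; omega,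
      card_range, card_pair (by omega), sum_getD] at p3
    have p2 := sum_g l P
    have s1 : P.filter (· < l.length) ⊆ range l.length := fun i hi => mem_range.2 (mem_filter.1 hi).2
    have s2 : _ ≤ l.sum := sum_getD l ▸ sum_le_sum_of_subset (f := fun i => l.getD i 0) s1
    have s3 : #(P.filter (2 * l.length + 4 ≤ ·)) ≤ 2 := (card_le_card (t := {2 * l.length + 4,
      2 * l.length + 5}) fun i hi => by
        have := p1 (mem_filter.1 hi).1
        have := (mem_filter.1 hi).2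
        simp only [mem_range, mem_insert, mem_singleton] at *
        omega).trans card_le_two
    refine ⟨_, s1, ?_⟩
    generalize ∑ i ∈ P.filter (· < l.length), l.getD i 0 = z at *
    generalize #(P.filter (2 * l.length + 4 ≤ ·)) = y at *
    generalize #(P.filter (· < 2 * l.length + 4)) = x at *
    have e : 2 * (4 * x + 6 * y) = 4 * (2 * l.length + 4) + 6 * 2 := by
      rcases lt_trichotomy (2 * (4 * x + 6 * y)) (4 * (2 * l.length + 4) + 6 * 2) with e | e | e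
      · have := Nat.mul_le_mul_right (2 * l.sum + 1) (show _ + 2 ≤ _ from by omega :
          2 * (4 * x + 6 * y) + 2 ≤ 4 * (2 * l.length + 4) + 6 * 2)
        rw [add_mul, mul_assoc] at this
        omega
      · exact e
      · have := Nat.mul_le_mul_right (2 * l.sum + 1) (show _ + 2 ≤ _ from by omega :
          4 * (2 * l.length + 4) + 6 * 2 + 2 ≤ 2 * (4 * x + 6 * y))
        rw [add_mul, mul_assoc 2] at this
        omega
    rw [← e, mul_assoc] at p3
    omega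

open Pool.Agent.Lib.CX in
theorem main : NPHard fun l : List ℕ => EqChoosable (stars fun i : Fin l.length => l[i]) :=
  partition_hard.red ⟨fun l => (List.range (2 * l.length + 6)).map fun i => g l i + 1,
    by unfold g; fun_prop, fun l => red l (by simp) fun i => by simp⟩

end Pool.Agent.H.MP_5b98da_lc
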